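import Pool.Agent.Y674.TR.Stm2

/-! Points divisible by two: doubling with the slope (job TR2-HLF of helper674). -/

set_option autoImplicit false

namespace Pool.Agent.Y448.TR

open WeierstrassCurve Polynomial Pool.Agent.Y674.TR

/-- doubling on `y² = x³ + A x + B` -/
theorem core {F : Type*} [Field F] [CharZero F] [DecidableEq F] {W : Affine F} {A B : F}
    (h1 : W.a₁ = 0) (h2 : W.a₂ = 0) (h3 : W.a₃ = 0) (h4 : W.a₄ = A) (h6 : W.a₆ = B)
    {x y : F} (hP : W.Nonsingular x y) (Q : W.Point)
    (hQ : 2 • Q = Affine.Point.some x y hP) :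
    ∃ X Y l : F, Y ^ 2 = X ^ 3 + A * X + B ∧ 2 * Y * l = 3 * X ^ 2 + A ∧
      l ^ 2 - 2 * X = x ∧ l * (X - x) - Y = y := by
  have h20 : (2 : F) ≠ 0 := two_ne_zero
  rcases Q with _ | ⟨X, Y, h⟩
  · exfalso
    rw [← Affine.Point.zero_def, smul_zero] at hQ
    exact Affine.Point.some_ne_zero hP hQ.symm
  · have heq : Y ^ 2 = X ^ 3 + A * X + B := by
      have := (W.equation_iff X Y).1 h.1
      rw [h1, h2, h3, h4, h6] at this
      linear_combination this
    have hneg : ∀ a b : F, W.negY a b = -b := fun a b => by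
      rw [Affine.negY, h1, h3]
      ring
    rw [two_nsmul] at hQ
    by_cases hY : Y = 0
    · exfalso
      have hself : Affine.Point.some X Y h + Affine.Point.some X Y h = 0 :=
        Affine.Point.add_self_of_Y_eq (by rw [hneg, hY, neg_zero])
      rw [hself] at hQ
      exact Affine.Point.some_ne_zero hP hQ.symm
    · have hYn : Y ≠ W.negY X Y := by
        rw [hneg]
        intro h5
        have : 2 * Y = 0 := by linear_combination h5
        rcases mul_eq_zero.1 this with h6' | h6'
        · exact h20 h6'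
        · exact hY h6'
      set l := (3 * X ^ 2 + A) / (2 * Y) with hl
      have hsl : W.slope X X Y Y = l := by
        rw [Affine.slope_of_Y_ne rfl hYn, hneg, h1, h2, h4, hl]
        congr 1 <;> ring
      have hlY : 2 * Y * l = 3 * X ^ 2 + A := by
        rw [hl]
        field_simp
      have hx2 : W.addX X X (W.slope X X Y Y) = l ^ 2 - 2 * X := by
        rw [hsl, Affine.addX, h1, h2]
        ring
      have hy2 : W.addY X X Y (W.slope X X Y Y) = -(l * (l ^ 2 - 2 * X - X) + Y) := by
        rw [Affine.addY, Affine.negAddY, hneg, hx2, hsl]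
      rw [Affine.Point.add_self_of_Y_ne hYn] at hQ
      have hxx : W.addX X X (W.slope X X Y Y) = x := by
        injection hQ
      have hyy : W.addY X X Y (W.slope X X Y Y) = y := by
        injection hQ
      refine ⟨X, Y, l, heq, hlY, ?_, ?_⟩
      · rw [← hxx, hx2]
      · rw [← hxx, ← hyy, hx2, hy2]
        ring

/-- **HLF** -/
theorem hlf : HLF := by
  intro K _ _ _ A B x y h Q hQ
  exact core (W := Pool.Agent.Y674.TR.E K A B) (A := (A : K)) (B := (B : K)) rfl rfl rfl rfl rfl
    h Q hQ

end Pool.Agent.Y448.TR
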